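import Pool.Agent.Helper20.RE.Stm

/-! Package L: no relation of small complexity, large exponent. -/

set_option autoImplicit false

open Finset Filter Topology
open scoped Classical

namespace Pool.Agent.Helper29.RE

open Pool.Agent.Helper20.RE

variable {k : ℕ}

/-- shift of the exponents in the variable `i` -/
def sh (i : Fin k) (a : (Fin k → ℕ) → ℤ) : (Fin k → ℕ) → ℤ :=
  fun e => if 1 ≤ e i then a (Function.update e i (e i - 1)) else 0

lemma sum_upd (e : Fin k → ℕ) (i : Fin k) (v : ℕ) :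
    ∑ j, Function.update e i v j + e i = ∑ j, e j + v := by
  rw [Finset.sum_update_of_mem (Finset.mem_univ i),
    ← Finset.sum_sdiff (Finset.singleton_subset_iff.2 (Finset.mem_univ i)) (f := e),
    Finset.sum_singleton]
  ring

lemma prod_upd (r : Fin k → ℚ) (e : Fin k → ℕ) (i : Fin k) (v : ℕ) :
    ∏ j, r j ^ Function.update e i v j = r i ^ v * ∏ j ∈ univ.erase i, r j ^ e j := by
  rw [← Finset.mul_prod_erase univ _ (Finset.mem_univ i), Function.update_self]
  congr 1
  refine Finset.prod_congr rfl fun j hj => ?_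
  rw [Function.update_of_ne (Finset.ne_of_mem_erase hj)]

lemma form_sh (r : Fin k → ℚ) (d : ℕ) (i : Fin k) (a : (Fin k → ℕ) → ℤ) :
    form r (d + 1) (sh i a) = r i * form r d a := by
  unfold form
  rw [Finset.mul_sum]
  have h1 : ∑ e ∈ Finset.Nat.antidiagonalTuple k (d + 1), ((sh i a e : ℤ) : ℚ) * ∏ j, r j ^ e j =
      ∑ e ∈ (Finset.Nat.antidiagonalTuple k (d + 1)).filter (fun e => 1 ≤ e i),
        ((sh i a e : ℤ) : ℚ) * ∏ j, r j ^ e j := by
    symm
    apply Finset.sum_filter_of_ne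
    intro e _ hne
    by_contra hc
    apply hne
    rw [sh, if_neg hc]
    simp
  rw [h1]
  refine Finset.sum_nbij' (fun e => Function.update e i (e i - 1))
    (fun e => Function.update e i (e i + 1)) ?_ ?_ ?_ ?_ ?_
  · intro e he
    obtain ⟨he1, he2⟩ := Finset.mem_filter.1 he
    rw [Finset.Nat.mem_antidiagonalTuple] at he1 ⊢
    have := sum_upd e i (e i - 1)
    omega
  · intro e he
    rw [Finset.Nat.mem_antidiagonalTuple] at he
    rw [Finset.mem_filter, Finset.Nat.mem_antidiagonalTuple]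
    have := sum_upd e i (e i + 1)
    refine ⟨by omega, ?_⟩
    rw [Function.update_self]
    omega
  · intro e he
    obtain ⟨he1, he2⟩ := Finset.mem_filter.1 he
    funext j
    by_cases hj : j = i
    · subst hj
      simp
      omega
    · simp [Function.update_of_ne hj]
  · intro e _
    funext j
    by_cases hj : j = i
    · subst hj
      simp
    · simp [Function.update_of_ne hj]
  · intro e he
    obtain ⟨he1, he2⟩ := Finset.mem_filter.1 he
    rw [sh, if_pos he2, prod_upd, ← Finset.mul_prod_erase univ (fun j => r j ^ e j)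
      (Finset.mem_univ i)]
    have : r i ^ e i = r i * r i ^ (e i - 1) := by
      rw [← pow_succ', Nat.sub_add_cancel he2]
    rw [this]
    ring

lemma form_add (r : Fin k → ℚ) (d : ℕ) (a b : (Fin k → ℕ) → ℤ) :
    form r d (fun e => a e + b e) = form r d a + form r d b := by
  unfold form
  rw [← Finset.sum_add_distrib]
  refine Finset.sum_congr rfl fun e _ => ?_
  push_cast
  ring

lemma form_sub (r : Fin k → ℚ) (d : ℕ) (a b : (Fin k → ℕ) → ℤ) :
    form r d (fun e => a e - b e) = form r d a - form r d b := by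
  unfold form
  rw [← Finset.sum_sub_distrib]
  refine Finset.sum_congr rfl fun e _ => ?_
  push_cast
  ring

/-- values of the forms of degree `d` with coefficients in `[0, m]` -/
noncomputable def V (r : Fin k → ℚ) (d m : ℕ) : Finset ℚ :=
  (Fintype.piFinset (fun _ : {e // e ∈ Finset.Nat.antidiagonalTuple k d} =>
    Finset.Icc (0 : ℤ) m)).image
    (fun c => form r d (fun e => if h : e ∈ Finset.Nat.antidiagonalTuple k d then c ⟨e, h⟩ else 0))

lemma mem_V (r : Fin k → ℚ) (d m : ℕ) (v : ℚ) : v ∈ V r d m ↔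
    ∃ a : (Fin k → ℕ) → ℤ, (∀ e, 0 ≤ a e ∧ a e ≤ m) ∧ form r d a = v := by
  unfold V
  rw [Finset.mem_image]
  constructor
  · rintro ⟨c, hc, rfl⟩
    refine ⟨_, ?_, rfl⟩
    intro e
    by_cases h : e ∈ Finset.Nat.antidiagonalTuple k d
    · simp only [dif_pos h]
      exact Finset.mem_Icc.1 (Fintype.mem_piFinset.1 hc ⟨e, h⟩)
    · simp only [dif_neg h]
      exact ⟨le_rfl, by positivity⟩
  · rintro ⟨a, ha, rfl⟩
    refine ⟨fun e => a e.1, ?_, ?_⟩
    · rw [Fintype.mem_piFinset]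
      intro e
      exact Finset.mem_Icc.2 (ha e.1)
    · unfold form
      refine Finset.sum_congr rfl fun e he => ?_
      simp only [dif_pos he]

lemma card_adT (k d : ℕ) : (Finset.Nat.antidiagonalTuple k d).card ≤ (d + 1) ^ k := by
  have h : Finset.Nat.antidiagonalTuple k d ⊆
      Fintype.piFinset (fun _ : Fin k => Finset.range (d + 1)) := by
    intro e he
    rw [Finset.Nat.mem_antidiagonalTuple] at he
    rw [Fintype.mem_piFinset]
    intro i
    rw [Finset.mem_range]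
    have := Finset.single_le_sum (f := e) (fun j _ => Nat.zero_le _) (Finset.mem_univ i)
    omega
  refine (Finset.card_le_card h).trans ?_
  rw [Fintype.card_piFinset]
  simp

lemma card_V_le (r : Fin k → ℚ) (d m : ℕ) : (V r d m).card ≤ (m + 1) ^ ((d + 1) ^ k) := by
  unfold V
  refine Finset.card_image_le.trans ?_
  rw [Fintype.card_piFinset, Finset.prod_const, Int.card_Icc]
  have h1 : ((m : ℤ) + 1 - 0).toNat = m + 1 := by omega
  rw [h1]
  apply Nat.pow_le_pow_right (by omega)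
  rw [Finset.card_univ, Fintype.card_coe]
  exact card_adT k d

lemma V_mono (r : Fin k → ℚ) (d : ℕ) {m m' : ℕ} (h : m ≤ m') : V r d m ⊆ V r d m' := by
  intro v hv
  rw [mem_V] at hv ⊢
  obtain ⟨a, ha, rfl⟩ := hv
  exact ⟨a, fun e => ⟨(ha e).1, (ha e).2.trans (by exact_mod_cast h)⟩, rfl⟩

lemma sh_mem {a : (Fin k → ℕ) → ℤ} {m : ℕ} (i : Fin k) (ha : ∀ e, 0 ≤ a e ∧ a e ≤ m) :
    ∀ e, 0 ≤ sh i a e ∧ sh i a e ≤ m := by
  intro e
  unfold sh
  split_ifs
  · exact ha _
  · exact ⟨le_rfl, by positivity⟩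

lemma card_V_shift (hk : 0 < k) (r : Fin k → ℚ) (hr : ∀ i, r i ≠ 0) (d m : ℕ) :
    (V r d m).card ≤ (V r (d + 1) m).card := by
  refine Finset.card_le_card_of_injOn (fun v => r ⟨0, hk⟩ * v) ?_ ?_
  · intro v hv
    rw [Finset.mem_coe, mem_V] at hv
    obtain ⟨a, ha, rfl⟩ := hv
    rw [Finset.mem_coe, mem_V]
    exact ⟨sh ⟨0, hk⟩ a, sh_mem _ ha, form_sh r d _ a⟩
  · intro v _ w _ h
    exact mul_left_cancel₀ (hr _) h

/-- the sequence -/
noncomputable def nn (r : Fin k → ℚ) (d : ℕ) : ℕ := (V r d (2 ^ d)).card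

lemma nn_zero (r : Fin k → ℚ) : 2 ≤ nn r 0 := by
  have h : ({0, 1} : Finset ℚ) ⊆ V r 0 (2 ^ 0) := by
    intro v hv
    rw [Finset.mem_insert, Finset.mem_singleton] at hv
    rw [mem_V]
    rcases hv with rfl | rfl
    · refine ⟨fun _ => 0, fun e => ⟨le_rfl, by positivity⟩, ?_⟩
      simp [form]
    · refine ⟨fun _ => 1, fun e => ⟨by norm_num, by norm_num⟩, ?_⟩
      simp [form, Finset.Nat.antidiagonalTuple_zero_right]
  calc 2 = ({0, 1} : Finset ℚ).card := by simp
    _ ≤ _ := Finset.card_le_card h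

lemma nn_step (hk : 0 < k) (r : Fin k → ℚ) (hr : ∀ i, r i ≠ 0) (d : ℕ) :
    nn r d ≤ (V r (d + 1) (2 ^ d)).card ∧ (V r (d + 1) (2 ^ d)).card ≤ nn r (d + 1) :=
  ⟨card_V_shift hk r hr d _, Finset.card_le_card
    (V_mono r (d + 1) (Nat.pow_le_pow_right (by norm_num) (Nat.le_succ d)))⟩

lemma nn_two (hk : 0 < k) (r : Fin k → ℚ) (hr : ∀ i, r i ≠ 0) (d : ℕ) : 2 ≤ nn r d := by
  induction d with
  | zero => exact nn_zero r
  | succ d ih =>
    have := nn_step hk r hr d
    omega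

lemma log_nn_le (r : Fin k → ℚ) (d : ℕ) :
    Real.log (nn r d) ≤ ((d : ℝ) + 1) ^ (k + 1) * Real.log 2 := by
  have h1 : (nn r d : ℝ) ≤ (2 : ℝ) ^ ((d + 1) * (d + 1) ^ k) := by
    have h2 : nn r d ≤ (2 ^ (d + 1)) ^ ((d + 1) ^ k) := by
      refine (card_V_le r d (2 ^ d)).trans (Nat.pow_le_pow_left ?_ _)
      have : 1 ≤ 2 ^ d := Nat.one_le_two_pow
      rw [pow_succ]
      omega
    rw [← pow_mul] at h2
    exact_mod_cast h2
  rcases Nat.eq_zero_or_pos (nn r d) with h0 | h0
  · rw [h0, Nat.cast_zero, Real.log_zero]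
    positivity
  · have h3 := Real.log_le_log (by exact_mod_cast h0) h1
    rw [Real.log_pow] at h3
    refine h3.trans (le_of_eq ?_)
    push_cast
    ring

lemma exists_D (k : ℕ) {δ : ℝ} (hδ : 0 < δ) : ∃ D : ℕ, ((D : ℝ) + 1) ^ (k + 1) < (1 + δ) ^ D := by
  have h1 := tendsto_pow_const_div_const_pow_of_one_lt (k + 1) (r := 1 + δ) (by linarith)
  have h2 : ∀ᶠ n : ℕ in atTop, (n : ℝ) ^ (k + 1) / (1 + δ) ^ n < 1 / (1 + δ) :=
    (tendsto_order.1 h1).2 _ (by positivity)
  obtain ⟨N, hN⟩ := Filter.eventually_atTop.1 h2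
  refine ⟨N, ?_⟩
  have h3 := hN (N + 1) (Nat.le_succ N)
  rw [div_lt_div_iff₀ (by positivity) (by positivity), pow_succ (1 + δ) N] at h3
  push_cast at h3
  have h4 : (0 : ℝ) < 1 + δ := by linarith
  nlinarith

lemma exists_good (r : Fin k → ℚ) {δ : ℝ} (hδ : 0 < δ) {D : ℕ}
    (hD : ((D : ℝ) + 1) ^ (k + 1) < (1 + δ) ^ D) :
    ∃ d < D, Real.log (nn r (d + 1)) ≤ (1 + δ) * Real.log (nn r d) := by
  by_contra hc
  push Not at hc
  have h2 : 0 < Real.log 2 := Real.log_pos (by norm_num)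
  have key : ∀ d ≤ D, (1 + δ) ^ d * Real.log 2 ≤ Real.log (nn r d) := by
    intro d
    induction d with
    | zero =>
      intro _
      rw [pow_zero, one_mul]
      apply Real.log_le_log (by norm_num)
      exact_mod_cast nn_zero r
    | succ d ih =>
      intro hd
      have h3 := ih (by omega)
      have h4 := hc d (by omega)
      calc (1 + δ) ^ (d + 1) * Real.log 2 = (1 + δ) * ((1 + δ) ^ d * Real.log 2) := by ring
        _ ≤ (1 + δ) * Real.log (nn r d) := mul_le_mul_of_nonneg_left h3 (by linarith)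
        _ ≤ _ := h4.le
  have h5 := key D le_rfl
  have h6 := log_nn_le r D
  have h7 : (1 + δ) ^ D * Real.log 2 ≤ ((D : ℝ) + 1) ^ (k + 1) * Real.log 2 := h5.trans h6
  have h8 := le_of_mul_le_mul_right h7 h2
  linarith

lemma exists_den (S : Finset ℚ) : ∃ q : ℕ, q ≠ 0 ∧ ∀ x ∈ S, ∃ z : ℤ, (z : ℚ) = q * x := by
  induction S using Finset.induction_on with
  | empty => exact ⟨1, one_ne_zero, by simp⟩
  | insert x S hx ih =>
    obtain ⟨q, hq, h⟩ := ih
    refine ⟨q * x.den, mul_ne_zero hq x.den_nz, ?_⟩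
    intro y hy
    rcases Finset.mem_insert.1 hy with rfl | hy
    · refine ⟨q * y.num, ?_⟩
      push_cast
      rw [mul_assoc, mul_comm (y.den : ℚ) y, Rat.mul_den_eq_num]
    · obtain ⟨z, hz⟩ := h y hy
      refine ⟨z * x.den, ?_⟩
      push_cast
      rw [hz]
      ring

theorem core (k : ℕ) (hk : 0 < k) {δ : ℝ} (hδ : 0 < δ) {D : ℕ}
    (hD : ((D : ℝ) + 1) ^ (k + 1) < (1 + δ / 2) ^ D) (r : Fin k → ℚ) (hr : ∀ i, r i ≠ 0)
    (hE : Expo r (2 - δ)) : ∃ d ≤ D, ∃ a b : (Fin k → ℕ) → ℤ, (∀ e, |a e| ≤ 2 ^ D) ∧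
      (∀ e, |b e| ≤ 2 ^ D) ∧ form r d a = form r (d + 1) b ∧ form r d a ≠ 0 := by
  obtain ⟨d, hd, hlog⟩ := exists_good r (by linarith : 0 < δ / 2) hD
  by_contra hno
  have h2d : 2 ^ d ≤ 2 ^ D := Nat.pow_le_pow_right (by norm_num) hd.le
  have hdD : d ≤ D := hd.le
  obtain ⟨V1, hV1⟩ : ∃ V1, V1 = V r (d + 1) (2 ^ d) := ⟨_, rfl⟩
  obtain ⟨V2, hV2⟩ : ∃ V2, V2 = V r d (2 ^ d) := ⟨_, rfl⟩
  -- no relation
  have hrel : ∀ x ∈ V1, ∀ x' ∈ V1, ∀ y ∈ V2, ∀ y' ∈ V2, x - y = x' - y' → x = x' ∧ y = y' := by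
    intro x hx x' hx' y hy y' hy' h
    rw [hV1, mem_V] at hx hx'
    rw [hV2, mem_V] at hy hy'
    obtain ⟨a, ha, rfl⟩ := hx
    obtain ⟨a', ha', rfl⟩ := hx'
    obtain ⟨b, hb, rfl⟩ := hy
    obtain ⟨b', hb', rfl⟩ := hy'
    by_cases hw : form r d b - form r d b' = 0
    · constructor <;> linarith
    · exfalso
      apply hno
      refine ⟨d, hdD, fun e => b e - b' e, fun e => a e - a' e, ?_, ?_, ?_, ?_⟩
      · intro e
        have h1 := hb e
        have h2 := hb' e
        have h3 : ((2 ^ d : ℕ) : ℤ) ≤ 2 ^ D := by exact_mod_cast h2d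
        rw [abs_le]
        constructor <;> linarith
      · intro e
        have h1 := ha e
        have h2 := ha' e
        have h3 : ((2 ^ d : ℕ) : ℤ) ≤ 2 ^ D := by exact_mod_cast h2d
        rw [abs_le]
        constructor <;> linarith
      · rw [form_sub, form_sub]
        linarith
      · rw [form_sub]
        exact hw
  obtain ⟨q, hq, hden⟩ := exists_den (V1 ∪ V2)
  have hq' : (q : ℚ) ≠ 0 := Nat.cast_ne_zero.2 hq
  have hnum : ∀ x ∈ V1 ∪ V2, ((((q : ℚ) * x).num : ℤ) : ℚ) = q * x := by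
    intro x hx
    obtain ⟨z, hz⟩ := hden x hx
    rw [← hz]
    simp
  obtain ⟨A, hA⟩ : ∃ A : Finset (ℤ × ℤ), A = (V1 ×ˢ V2).image
    (fun p => (((q : ℚ) * p.1).num, ((q : ℚ) * p.2).num)) := ⟨_, rfl⟩
  have hmem : ∀ (s t : ℚ), t ∈ pr s A ↔ ∃ x ∈ V1, ∃ y ∈ V2, q * (x + s * y) = t := by
    intro s t
    rw [pr, hA, Finset.mem_image]
    constructor
    · rintro ⟨z, hz, rfl⟩
      obtain ⟨p, hp, rfl⟩ := Finset.mem_image.1 hz
      obtain ⟨h1, h2⟩ := Finset.mem_product.1 hp
      refine ⟨p.1, h1, p.2, h2, ?_⟩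
      simp only
      rw [hnum _ (Finset.mem_union_left _ h1), hnum _ (Finset.mem_union_right _ h2)]
      ring
    · rintro ⟨x, hx, y, hy, rfl⟩
      refine ⟨_, Finset.mem_image_of_mem _ (Finset.mem_product.2 ⟨hx, hy⟩ : (x, y) ∈ V1 ×ˢ V2), ?_⟩
      simp only
      rw [hnum _ (Finset.mem_union_left _ hx), hnum _ (Finset.mem_union_right _ hy)]
      ring
  have hV1le : V1.card ≤ nn r (d + 1) := hV1 ▸ (nn_step hk r hr d).2
  have hV1ge : nn r d ≤ V1.card := hV1 ▸ (nn_step hk r hr d).1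
  have hV2eq : V2.card = nn r d := by rw [hV2, nn]
  have hn2 := nn_two hk r hr d
  have hn2' := nn_two hk r hr (d + 1)
  -- the projections
  have htop : top r A ≤ nn r (d + 1) := by
    rw [top]
    refine max_le (max_le ?_ ?_) ?_
    · refine le_trans (Finset.card_le_card (t := V1.image fun x => (q : ℚ) * x) ?_)
        (Finset.card_image_le.trans hV1le)
      intro t ht
      obtain ⟨x, hx, y, hy, rfl⟩ := (hmem 0 t).1 ht
      rw [zero_mul, add_zero]
      exact Finset.mem_image_of_mem _ hx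
    · refine le_trans (Finset.card_le_card (t := V2.image fun x => (q : ℚ) * x) ?_)
        (Finset.card_image_le.trans (by omega))
      intro t ht
      rw [prInf, hA, Finset.mem_image] at ht
      obtain ⟨z, hz, rfl⟩ := ht
      obtain ⟨p, hp, rfl⟩ := Finset.mem_image.1 hz
      obtain ⟨h1, h2⟩ := Finset.mem_product.1 hp
      simp only
      rw [hnum _ (Finset.mem_union_right _ h2)]
      exact Finset.mem_image_of_mem _ h2
    · refine Finset.sup_le fun i _ => ?_
      refine le_trans (Finset.card_le_card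
        (t := (V r (d + 1) (2 ^ (d + 1))).image fun x => (q : ℚ) * x) ?_) Finset.card_image_le
      intro t ht
      obtain ⟨x, hx, y, hy, rfl⟩ := (hmem (r i) t).1 ht
      apply Finset.mem_image_of_mem
      rw [hV1, mem_V] at hx
      rw [hV2, mem_V] at hy
      obtain ⟨a, ha, rfl⟩ := hx
      obtain ⟨b, hb, rfl⟩ := hy
      rw [mem_V]
      refine ⟨fun e => a e + sh i b e, ?_, ?_⟩
      · intro e
        have h1 := ha e
        have h2 := sh_mem i hb e
        have h3 : ((2 ^ (d + 1) : ℕ) : ℤ) = ((2 ^ d : ℕ) : ℤ) + ((2 ^ d : ℕ) : ℤ) := by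
          push_cast
          ring
        rw [h3]
        exact ⟨by linarith [h1.1, h2.1], by linarith [h1.2, h2.2]⟩
      · rw [form_add, form_sh]
  have hdiff : V1.card * V2.card ≤ (pr (-1) A).card := by
    rw [← Finset.card_product]
    refine Finset.card_le_card_of_injOn (fun p => (q : ℚ) * (p.1 + -1 * p.2)) ?_ ?_
    · intro p hp
      obtain ⟨h1, h2⟩ := Finset.mem_product.1 (Finset.mem_coe.1 hp)
      exact Finset.mem_coe.2 ((hmem (-1) _).2 ⟨p.1, h1, p.2, h2, rfl⟩)
    · intro p hp p' hp' h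
      obtain ⟨h1, h2⟩ := Finset.mem_product.1 (Finset.mem_coe.1 hp)
      obtain ⟨h1', h2'⟩ := Finset.mem_product.1 (Finset.mem_coe.1 hp')
      have h3 : p.1 + -1 * p.2 = p'.1 + -1 * p'.2 := mul_left_cancel₀ hq' h
      obtain ⟨h4, h5⟩ := hrel _ h1 _ h1' _ h2 _ h2' (by linarith)
      exact Prod.ext h4 h5
  have hEA := hE A
  -- logarithms
  have hpr : (nn r d : ℝ) ^ 2 ≤ ((pr (-1) A).card : ℝ) := by
    have h1 : nn r d * nn r d ≤ (pr (-1) A).card :=
      le_trans (Nat.mul_le_mul hV1ge hV2eq.ge) hdiff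
    rw [sq]
    exact_mod_cast h1
  have hL0 : 0 < Real.log (nn r d) := Real.log_pos (by
    have : (2 : ℝ) ≤ nn r d := by exact_mod_cast hn2
    linarith)
  have hn0 : (0 : ℝ) < (nn r d : ℝ) := by
    have : (2 : ℝ) ≤ nn r d := by exact_mod_cast hn2
    linarith
  have htop1 : 1 ≤ top r A := by
    have h1 : 0 < (pr (-1) A).card := by
      have : 0 < V1.card * V2.card := by
        rw [hV2eq]
        exact Nat.mul_pos (by omega) (by omega)
      omega
    have h2 : A.Nonempty := by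
      by_contra hc
      rw [Finset.not_nonempty_iff_eq_empty] at hc
      rw [hc, pr, Finset.image_empty, Finset.card_empty] at h1
      exact lt_irrefl _ h1
    have h3 : 0 < (pr 0 A).card := Finset.card_pos.2 (h2.image _)
    have h4 : (pr 0 A).card ≤ top r A := (le_max_left _ _).trans (le_max_left _ _)
    omega
  have hlogE : 2 * Real.log (nn r d) ≤ (2 - δ) * Real.log (top r A) := by
    have h1 : (nn r d : ℝ) ^ 2 ≤ (top r A : ℝ) ^ (2 - δ) := hpr.trans hEA
    have h2 := Real.log_le_log (by positivity) h1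
    rw [Real.log_pow, Real.log_rpow (by exact_mod_cast htop1)] at h2
    exact_mod_cast h2
  have htop0 : 0 ≤ Real.log (top r A) := Real.log_nonneg (by exact_mod_cast htop1)
  rcases le_or_gt 2 δ with h | h
  · have : (2 - δ) * Real.log (top r A) ≤ 0 :=
      mul_nonpos_of_nonpos_of_nonneg (by linarith) htop0
    linarith
  · have h1 : Real.log (top r A) ≤ Real.log (nn r (d + 1)) :=
      Real.log_le_log (by exact_mod_cast htop1) (by exact_mod_cast htop)
    have h2 : (2 - δ) * Real.log (top r A) ≤ (2 - δ) * ((1 + δ / 2) * Real.log (nn r d)) :=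
      mul_le_mul_of_nonneg_left (h1.trans hlog) (by linarith)
    have h3 : 2 * Real.log (nn r d) ≤ (2 - δ) * ((1 + δ / 2) * Real.log (nn r d)) :=
      hlogE.trans h2
    nlinarith [mul_pos hL0 (mul_pos hδ hδ)]

theorem L : S_L := by
  intro k hk δ hδ
  obtain ⟨D, hD⟩ := exists_D k (δ := δ / 2) (by linarith)
  refine ⟨2 ^ D, fun r hr hE => ?_⟩
  obtain ⟨d, hd, a, b, ha, hb, h1, h2⟩ := core k hk hδ hD r hr hE
  refine ⟨d, hd.trans (Nat.lt_two_pow_self).le, a, b, ?_, ?_, h1, h2⟩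
  · intro e
    exact_mod_cast ha e
  · intro e
    exact_mod_cast hb e

end Pool.Agent.Helper29.RE
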