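import Pool.Agent.Helper20.RE.Stm2
import Pool.Agent.Helper29.RE.L

/-! The explicit form of package L. -/

set_option autoImplicit false

open Finset Filter Topology
open scoped Classical

namespace Pool.Agent.Helper29.RE

open Pool.Agent.Helper20.RE

lemma large_D {k D : ℕ} {δ : ℝ} (hδ : 0 < δ) (hδ1 : δ ≤ 1)
    (h : 8 * (k + 1) / δ * Real.log (8 * (k + 1) / δ) ≤ D) (hk : 0 < k) :
    ((D : ℝ) + 1) ^ (k + 1) < (1 + δ / 2) ^ D := by
  obtain ⟨t, ht⟩ : ∃ t : ℝ, t = 8 * (k + 1) / δ := ⟨_, rfl⟩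
  rw [← ht] at h
  have hk1 : (1 : ℝ) ≤ k := by exact_mod_cast hk
  have ht16 : 16 ≤ t := by
    rw [ht, le_div_iff₀ hδ]
    nlinarith
  have ht0 : 0 < t := by linarith
  have hL : 0 < Real.log t := Real.log_pos (by linarith)
  have hD0 : (0 : ℝ) ≤ D := Nat.cast_nonneg D
  have h1 : Real.log ((D : ℝ) + 1) ≤ 2 * Real.log t + ((D : ℝ) + 1) / t ^ 2 - 1 := by
    have := Real.log_le_sub_one_of_pos (x := ((D : ℝ) + 1) / t ^ 2) (by positivity)
    rw [Real.log_div (by positivity) (by positivity), Real.log_pow] at this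
    push_cast at this
    linarith
  have h2 : Real.log ((D : ℝ) + 1) < 3 * (D / t) := by
    refine lt_of_le_of_lt h1 ?_
    obtain ⟨u, hu⟩ : ∃ u : ℝ, u = (D : ℝ) / t := ⟨_, rfl⟩
    have hDu : (D : ℝ) = u * t := by rw [hu]; field_simp
    have hu1 : Real.log t ≤ u := by
      rw [hu, le_div_iff₀ ht0]
      linarith
    have e1 : ((D : ℝ) + 1) / t ^ 2 = u / t + 1 / t ^ 2 := by
      rw [hDu]
      field_simp
    rw [← hu, e1]
    have e2 : u / t ≤ u / 16 := by
      apply div_le_div_of_nonneg_left (by linarith) (by norm_num) ht16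
    have e3 : 1 / t ^ 2 ≤ 1 / 16 ^ 2 := by
      apply div_le_div_of_nonneg_left (by norm_num) (by norm_num)
      exact pow_le_pow_left₀ (by norm_num) ht16 2
    have e4 : (1 : ℝ) / 16 ^ 2 ≤ 1 / 2 := by norm_num
    linarith
  have h3 : 3 / 4 * (δ / 2) ≤ Real.log (1 + δ / 2) := by
    have := Real.le_log_one_add_of_nonneg (x := δ / 2) (by linarith)
    refine le_trans ?_ this
    rw [le_div_iff₀ (by linarith)]
    nlinarith
  have h4 : Real.log (((D : ℝ) + 1) ^ (k + 1)) < Real.log ((1 + δ / 2) ^ D) := by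
    rw [Real.log_pow, Real.log_pow]
    push_cast
    have e1 : ((k : ℝ) + 1) * Real.log ((D : ℝ) + 1) < ((k : ℝ) + 1) * (3 * (D / t)) :=
      mul_lt_mul_of_pos_left h2 (by linarith)
    have e2 : ((k : ℝ) + 1) * (3 * (D / t)) = D * (3 / 4 * (δ / 2)) := by
      rw [ht]
      field_simp
      ring
    have e3 : (D : ℝ) * (3 / 4 * (δ / 2)) ≤ D * Real.log (1 + δ / 2) :=
      mul_le_mul_of_nonneg_left h3 hD0
    linarith
  exact (Real.log_lt_log_iff (by positivity) (by positivity)).1 h4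

theorem L2 : S_L2 := by
  intro k hk δ hδ hδ1 D hD r hr hE
  exact core k hk hδ (large_D hδ hδ1 hD hk) r hr hE

end Pool.Agent.Helper29.RE
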